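import Pool.Agent.helper64.PC.SpecK

/-!
# pc:BSM — the base function for monotone gates of large fan-in
-/

set_option autoImplicit false

namespace Pool.Agent.PC

open Finset Polynomial Pool.Agent.PB

open Classical in
/-- the base function on `N` numbered variables -/
noncomputable def BSM_h {K : Type} [Field K] [Fintype K] [DecidableEq K] {r : ℕ} (c N : ℕ) (ρ : Pt K r ≃ Fin N) :
    BF N :=
  fun x => decide (∃ V : Finset (Pt K r), AffG c V ∧ ∀ z ∈ V, x (ρ z) = true)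

theorem BSM_h_iff {K : Type} [Field K] [Fintype K] [DecidableEq K] {r : ℕ} (c N : ℕ) (ρ : Pt K r ≃ Fin N)
    (x : Fin N → Bool) : BSM_h c N ρ x = true ↔ ∃ V : Finset (Pt K r), AffG c V ∧ ∀ z ∈ V, x (ρ z) = true := by
  unfold BSM_h
  simp only [decide_eq_true_eq]

theorem BSM_mono {K : Type} [Field K] [Fintype K] [DecidableEq K] {r : ℕ} (c N : ℕ) (ρ : Pt K r ≃ Fin N) :
    Mono (BSM_h c N ρ) := by
  intro x y hxy hx
  rw [BSM_h_iff] at hx ⊢
  obtain ⟨V, hV, hg⟩ := hx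
  exact ⟨V, hV, fun z hz => hxy _ (hg z hz)⟩

open Classical in
theorem BSM_size (hTRI : TRI_stmt) (C : ℕ) (hC : ∀ (N : ℕ) (W : Set (Fin N → Bool)),
    (∀ u ∈ W, ∀ v ∈ W, ∀ w ∈ W, (fun i => xor (u i) (xor (v i) (w i))) ∈ W) →
    Size std (fun x : Fin N → Bool =>
      decide (∃ v ∈ W, ∀ i, v i = true → x i = true)) (C * (N + 2) ^ 4))
    {K : Type} [Field K] [Fintype K] [DecidableEq K] [CharP K 2] {r : ℕ} (c N : ℕ) (ρ : Pt K r ≃ Fin N) :
    Size std (BSM_h c N ρ) (C * (N + 2) ^ 4) := by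
  obtain ⟨W, hW⟩ : ∃ W : Set (Fin N → Bool), W = {v | AffG c (univ.filter fun k : Pt K r => v (ρ k) = true)} :=
    ⟨_, rfl⟩
  have hWm : ∀ v, v ∈ W ↔ AffG c (univ.filter fun k : Pt K r => v (ρ k) = true) := by
    intro v
    rw [hW, Set.mem_ofPred_eq]
  have h := hC N W ?_
  · have e : BSM_h c N ρ = fun x : Fin N → Bool =>
        decide (∃ v ∈ W, ∀ i, v i = true → x i = true) := by
      funext x
      rw [Bool.eq_iff_iff, BSM_h_iff, decide_eq_true_iff]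
      constructor
      · rintro ⟨V, hg, hV⟩
        refine ⟨fun i => decide (ρ.symm i ∈ V), ?_, ?_⟩
        · rw [hWm]
          have e2 : (univ.filter fun k : Pt K r => decide (ρ.symm (ρ k) ∈ V) = true) = V := by
            ext k
            simp only [mem_filter, mem_univ, true_and, decide_eq_true_eq, Equiv.symm_apply_apply]
          rw [e2]
          exact hg
        · intro i hi
          have h1 : ρ.symm i ∈ V := by simpa using hi
          have h2 : x (ρ (ρ.symm i)) = true := hV _ h1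
          rwa [Equiv.apply_symm_apply] at h2
      · rintro ⟨v, hv, hx⟩
        rw [hWm] at hv
        refine ⟨_, hv, ?_⟩
        intro z hz
        exact hx _ (Finset.mem_filter.1 hz).2
    rw [e]
    exact h
  · intro u hu v hv w hw
    rw [hWm] at hu hv hw ⊢
    have h3 := hTRI K c r _ _ _ hu hv hw
    have e3 : (univ.filter fun k : Pt K r => xor (u (ρ k)) (xor (v (ρ k)) (w (ρ k))) = true) =
        symmDiff (univ.filter fun k => u (ρ k) = true)
          (symmDiff (univ.filter fun k => v (ρ k) = true) (univ.filter fun k => w (ρ k) = true)) := by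
      ext k
      simp only [mem_filter, mem_univ, true_and, mem_symmDiff]
      cases u (ρ k) <;> cases v (ρ k) <;> cases w (ρ k) <;> simp
    rw [e3]
    exact h3

theorem BSM_num (e : ℕ) (he : 6 ≤ e) :
    2 ^ (2 * e) * (2 ^ (2 * e) * (4 * 2 ^ e + 2 * 2 ^ e)) + 1 ≤ 2 ^ (6 * e) := by
  have h1 : 8 ≤ 2 ^ e := by
    calc (8 : ℕ) = 2 ^ 3 := by norm_num
      _ ≤ 2 ^ e := Nat.pow_le_pow_right (by norm_num) (by omega)
  have h2 : 2 ^ (2 * e) = (2 ^ e) ^ 2 := by rw [← pow_mul, mul_comm]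
  have h3 : 2 ^ (6 * e) = (2 ^ e) ^ 6 := by rw [← pow_mul, mul_comm]
  rw [h2, h3]
  generalize 2 ^ e = x at h1
  have h4 : x ^ 2 * (x ^ 2 * (4 * x + 2 * x)) + 1 ≤ 8 * x ^ 5 := by
    have h5 : 1 ≤ x ^ 5 := Nat.one_le_pow _ _ (by omega)
    calc x ^ 2 * (x ^ 2 * (4 * x + 2 * x)) + 1 = 6 * x ^ 5 + 1 := by ring
      _ ≤ 8 * x ^ 5 := by omega
  calc x ^ 2 * (x ^ 2 * (4 * x + 2 * x)) + 1 ≤ 8 * x ^ 5 := h4
    _ ≤ x * x ^ 5 := Nat.mul_le_mul_right _ h1
    _ = x ^ 6 := by ring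

theorem BSM_low (hABS : ABS_stmt) (hSYK : SYK_stmt) (hNUM : NUM_stmt) (hREJ : REJ_stmt)
    {K : Type} [Field K] [Fintype K] [DecidableEq K] [CharP K 2] (e r N : ℕ) (he : 6 ≤ e) (hr : 1 ≤ r)
    (her : 32 * e * r ≤ 2 ^ e) (hK : Fintype.card K = 2 ^ (6 * e)) (S : Finset K) (hS : S.card = 2 ^ (2 * e))
    (hP : Fintype.card (Pt K r) = 2 ^ (6 * e * (r + 1))) (ρ : Pt K r ≃ Fin N) (s : ℕ)
    (hs : Size (upTo monG (2 ^ (6 * e * (r - 1)))) (BSM_h (2 * 2 ^ e) N ρ) s) : 2 ^ (2 ^ e) ≤ s := by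
  obtain ⟨Y, hg, hnu, ht, hM, hlam, hm⟩ := hSYK K e r (4 * 2 ^ e + 2 * 2 ^ e) S he hr hK hS
  have hA : 0 < Fintype.card (Fin r → Fin (2 * 2 ^ e + 1) → K) := Fintype.card_pos
  have hOm : 0 < Fintype.card (Fin (2 ^ (2 * e)) → Th K (4 * 2 ^ e) r) := Fintype.card_pos
  have hs' : Size (upTo monG Y.m) (BSM_h (2 * 2 ^ e) N ρ) s := by
    rw [hm]
    exact hs
  have h := hABS (Pt K r) (Fin r → Fin (2 * 2 ^ e + 1) → K) (Fin (2 ^ (2 * e)) → Th K (4 * 2 ^ e) r) Y N ρ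
    (BSM_h (2 * 2 ^ e) N ρ) s hA hOm hs' ?_ ?_
  · rw [ht, hM, hlam, hP] at h
    exact hNUM e r s he hr her h
  · intro a
    rw [BSM_h_iff, hg]
    refine ⟨grF a, fun R hR => hR a, ?_⟩
    intro z hz
    unfold inp
    rw [Equiv.symm_apply_apply]
    exact decide_eq_true hz
  · intro w
    rw [Bool.eq_false_iff]
    intro hh
    rw [BSM_h_iff, hnu] at hh
    obtain ⟨V, hV, hz⟩ := hh
    refine hREJ K (2 * 2 ^ e) (4 * 2 ^ e) r (2 ^ (2 * e)) S w V ?_ ?_ ?_ hV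
    · have := Nat.one_le_two_pow (n := e)
      omega
    · rw [hS, hK]
      exact BSM_num e he
    · intro z hzV
      have h2 := hz z hzV
      unfold inp at h2
      rw [Equiv.symm_apply_apply] at h2
      exact of_decide_eq_true h2

theorem BSM (hABS : ABS_stmt) (hSYK : SYK_stmt) (hNUM : NUM_stmt) (hREJ : REJ_stmt) (hTRI : TRI_stmt) (hGS3 : GS3_stmt) : BSM_stmt := by
  obtain ⟨C, hC⟩ := hGS3
  refine ⟨C, fun e r he hr her => ?_⟩
  have : Fact (Nat.Prime 2) := ⟨Nat.prime_two⟩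
  let iF : Fintype (GaloisField 2 (6 * e)) := Fintype.ofFinite _
  let iD : DecidableEq (GaloisField 2 (6 * e)) := Classical.decEq _
  have hK : Fintype.card (GaloisField 2 (6 * e)) = 2 ^ (6 * e) := by
    rw [← Nat.card_eq_fintype_card]
    exact GaloisField.card 2 (6 * e) (by omega)
  obtain ⟨S, -, hS⟩ : ∃ S : Finset (GaloisField 2 (6 * e)), S ⊆ univ ∧ S.card = 2 ^ (2 * e) := by
    apply Finset.exists_subset_card_eq
    rw [card_univ, hK]
    exact Nat.pow_le_pow_right (by norm_num) (by omega)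
  have hP : Fintype.card (Pt (GaloisField 2 (6 * e)) r) = 2 ^ (6 * e * (r + 1)) := by
    rw [Fintype.card_prod, Fintype.card_fun, Fintype.card_fin, hK, ← pow_mul, ← pow_add]
    congr 1
    ring
  have hρ : Nonempty (Pt (GaloisField 2 (6 * e)) r ≃ Fin (2 ^ (6 * e * (r + 1)))) := by
    refine ⟨Fintype.equivOfCardEq ?_⟩
    rw [hP, Fintype.card_fin]
  obtain ⟨ρ⟩ := hρ
  refine ⟨BSM_h (2 * 2 ^ e) (2 ^ (6 * e * (r + 1))) ρ, BSM_mono _ _ ρ, BSM_size hTRI C hC _ _ ρ, ?_⟩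
  intro s hs
  exact BSM_low hABS hSYK hNUM hREJ e r _ he hr her hK S hS hP ρ s hs

end Pool.Agent.PC
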